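import Pool.Agent.Run7.h150.Rot.Euclid
import Pool.Agent.Y395.SP.UpCnt

set_option autoImplicit false

/-!
# Arithmetic progressions modulo `n`: splaying
-/

namespace Pool.Agent.Run7.h150.Rot

open Pool.Agent.H581R2.Splay Pool.Agent.TH49.Spl Pool.Agent.Y395.SP

lemma cost_le {n a b N : ℕ} (hn : 0 < n) (hN : n ≤ N) {T : Tr} (hT : keys T = List.range n) :
    (costSplay T (prog n a b N) : ℝ) ≤ 8 * N + 14 * (N * Real.logb 2 n) := by
  have hne : T ≠ Tr.nil := by
    rintro rfl
    have h1 : (keys Tr.nil).length = (List.range n).length := by rw [hT]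
    simp only [keys, List.length_nil, List.length_range] at h1
    omega
  have h1 := ws_holds T (prog n a b N) (bst_range hT) hne (fun x hx => by
    rw [hT, List.mem_range]; exact prog_mem hn x hx)
  have h2 := wsum_le (S := Finset.range n) (k := n) (by simp) (prog n a b N) [] (by simp)
    (fun y hy => Finset.mem_range.2 (prog_mem hn y hy))
  rw [hT, List.length_range, prog_length] at h1
  rw [prog_length] at h2
  have h3 : 0 ≤ Real.logb 2 n := Real.logb_nonneg (by norm_num) (by exact_mod_cast hn)
  have h4 : (n : ℝ) * Real.logb 2 n ≤ N * Real.logb 2 n :=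
    mul_le_mul_of_nonneg_right (by exact_mod_cast hN) h3
  linarith

/-- the optimum is at least the number of requests times the number of steps of Euclid's
algorithm -/
lemma opt_ge_quots {n a b N : ℕ} (ha1 : a < n) (hc : Nat.Coprime a n)
    (hN : n ≤ N) {T : Tr} (hT : keys T = List.range n) :
    (N : ℝ) * (quots n a).length ≤ 70 * optAny (List.range n) (prog n a b N) := by
  have hn : 0 < n := by omega
  have h1 := opt_ge (b := b) hn hc hN (gs n a) (fun e he => gs_spec he) hT
  have h2 := opt_len (n := n) (a := a) (b := b) (N := N) hT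
  have h3 : ((quots n a).length : ℝ) ≤ ((2 * (gs n a).card + 6 : ℕ) : ℝ) := by
    exact_mod_cast length_quots_le ha1
  push_cast at h3
  have h4 : (N : ℝ) * (quots n a).length ≤ N * (2 * (gs n a).card + 6) :=
    mul_le_mul_of_nonneg_left h3 (by positivity)
  nlinarith

/-- the sum of the logarithms of the quotients plus one -/
noncomputable def lsum (n a : ℕ) : ℝ :=
  ((quots n a).map fun q : ℕ => Real.logb 2 ((q : ℝ) + 1)).sum

lemma quots_length_pos {n a : ℕ} (ha : 1 ≤ a) : 0 < (quots n a).length := by
  rw [quots_pos (by omega)]; simp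

lemma main1 {n a b N : ℕ} (ha : 1 ≤ a) (ha1 : a < n) (hc : Nat.Coprime a n)
    (hN : n ≤ N) {T : Tr} (hT : keys T = List.range n) :
    (costSplay T (prog n a b N) : ℝ) ≤
      (8 + 980 * (lsum n a / (quots n a).length)) * optAny (List.range n) (prog n a b N) := by
  have hn : 0 < n := by omega
  have hl : (0 : ℝ) < (quots n a).length := by exact_mod_cast quots_length_pos ha
  have h1 := cost_le (a := a) (b := b) hn hN hT
  have h2 := opt_ge_quots (b := b) ha1 hc hN hT
  have h3 := opt_len (n := n) (a := a) (b := b) (N := N) hT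
  have h4 := log_le_quots a n hn
  have h5 : Nat.gcd n a = 1 := by rw [Nat.gcd_comm]; exact hc
  rw [h5] at h4
  simp only [Nat.cast_one, Real.logb_one, zero_add] at h4
  change Real.logb 2 n ≤ lsum n a at h4
  have h0 : 0 ≤ Real.logb 2 n := Real.logb_nonneg (by norm_num) (by exact_mod_cast hn)
  set O : ℝ := ((optAny (List.range n) (prog n a b N) : ℕ) : ℝ) with hO
  set ell : ℝ := (((quots n a).length : ℕ) : ℝ) with hell
  have hO0 : 0 ≤ O := by rw [hO]; positivity
  have h6 : (N : ℝ) * Real.logb 2 n ≤ 70 * (lsum n a / ell) * O := by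
    have h7 : (N : ℝ) * Real.logb 2 n * ell ≤ 70 * lsum n a * O := by
      calc (N : ℝ) * Real.logb 2 n * ell = (N * ell) * Real.logb 2 n := by ring
        _ ≤ (70 * O) * Real.logb 2 n := mul_le_mul_of_nonneg_right h2 h0
        _ ≤ (70 * O) * lsum n a := mul_le_mul_of_nonneg_left h4 (by positivity)
        _ = 70 * lsum n a * O := by ring
    have h8 : 70 * (lsum n a / ell) * O = (70 * lsum n a * O) / ell := by
      field_simp
    rw [h8, le_div_iff₀ hl]
    exact h7
  nlinarith

end Pool.Agent.Run7.h150.Rot
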