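import Pool.Agent.Run7.h150.Rot.Most

set_option autoImplicit false

/-!
# The average over the differences modulo a prime, and consecutive Fibonacci numbers
-/

namespace Pool.Agent.Run7.h150.Rot

open Pool.Agent.H581R2.Splay Pool.Agent.TH49.Spl Pool.Agent.Y395.SP

lemma Bad_empty {p J : ℕ} (hp : p.Prime) (hJ : 2 * p < 2 ^ J) : Bad p J = ∅ := by
  rw [← Finset.card_eq_zero]
  have h1 := card_Bad (g := J) hp
  by_contra h
  have h2 : 1 * 2 ^ J ≤ (Bad p J).card * 2 ^ J := Nat.mul_le_mul_right _ (by omega)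
  omega

lemma main4 {p : ℕ} (hp : p.Prime) (b N : ℕ → ℕ) (T : ℕ → Tr) (hN : ∀ a, p ≤ N a)
    (hT : ∀ a, keys (T a) = List.range p) :
    ∑ a ∈ Finset.Icc 1 (p - 1), (costSplay (T a) (prog p a (b a) (N a)) : ℝ) /
      optAny (List.range p) (prog p a (b a) (N a)) ≤ 4572 * p := by
  classical
  have hp0 : 0 < p := hp.pos
  obtain ⟨J, hJ⟩ : ∃ J, 2 * p < 2 ^ J := ⟨2 * p, Nat.lt_two_pow_self⟩
  have h1 : ∀ a ∈ Finset.Icc 1 (p - 1), (costSplay (T a) (prog p a (b a) (N a)) : ℝ) /
      optAny (List.range p) (prog p a (b a) (N a)) ≤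
        932 + 910 * ∑ i ∈ Finset.range J, (if a ∈ Bad p i then (1 : ℝ) else 0) := by
    intro a ha
    have hex : ∃ g, a ∉ Bad p g := ⟨J, by rw [Bad_empty hp hJ]; simp⟩
    have hg := Nat.find_spec hex
    have hmin : ∀ i, i < Nat.find hex → ¬ a ∉ Bad p i := fun i hi => Nat.find_min hex hi
    have hle : Nat.find hex ≤ J := Nat.find_min' hex (by rw [Bad_empty hp hJ]; simp)
    set g := Nat.find hex with hgd
    have h2 := main2 (b := b a) hp ha hg (hN a) (hT a)
    have h3 := opt_len (n := p) (a := a) (b := b a) (N := N a) (hT a)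
    have h4 : (0 : ℝ) < N a := by
      have : 0 < N a := lt_of_lt_of_le hp0 (hN a)
      exact_mod_cast this
    rw [div_le_iff₀ (by linarith)]
    refine h2.trans (mul_le_mul_of_nonneg_right ?_ (by positivity))
    have h5 : (g : ℝ) ≤ ∑ i ∈ Finset.range J, (if a ∈ Bad p i then (1 : ℝ) else 0) := by
      have h7 : ∀ i ∈ Finset.range g, (if a ∈ Bad p i then (1 : ℝ) else 0) = 1 := by
        intro i hi
        have h6 := hmin i (Finset.mem_range.1 hi)
        rw [not_not] at h6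
        rw [if_pos h6]
      calc (g : ℝ) = ∑ i ∈ Finset.range g, (if a ∈ Bad p i then (1 : ℝ) else 0) := by
            rw [Finset.sum_congr rfl h7]
            simp
        _ ≤ _ := by
            refine Finset.sum_le_sum_of_subset_of_nonneg
              (Finset.range_mono hle) fun i _ _ => ?_
            split_ifs <;> norm_num
    linarith
  refine (Finset.sum_le_sum h1).trans ?_
  rw [Finset.sum_add_distrib, ← Finset.mul_sum, Finset.sum_comm, Finset.sum_const, Nat.card_Icc]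
  have h2 : ∀ i ∈ Finset.range J, ∑ a ∈ Finset.Icc 1 (p - 1),
      (if a ∈ Bad p i then (1 : ℝ) else 0) ≤ 2 * p * (1 / 2 : ℝ) ^ i := by
    intro i _
    rw [Finset.sum_ite, Finset.sum_const_zero, add_zero, Finset.sum_const, nsmul_eq_mul, mul_one]
    have h3 : (((Finset.Icc 1 (p - 1)).filter fun a => a ∈ Bad p i).card : ℝ) ≤
        (Bad p i).card := by
      exact_mod_cast Finset.card_le_card (fun a ha => (Finset.mem_filter.1 ha).2)
    refine h3.trans ?_
    have h4 : (((Bad p i).card * 2 ^ i : ℕ) : ℝ) ≤ ((2 * p : ℕ) : ℝ) := by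
      exact_mod_cast card_Bad hp
    push_cast at h4
    rw [one_div, inv_pow, ← div_eq_mul_inv, le_div_iff₀ (by positivity)]
    exact h4
  have h3 := Finset.sum_le_sum h2
  rw [← Finset.mul_sum] at h3
  have h4 : ∑ i ∈ Finset.range J, (1 / 2 : ℝ) ^ i ≤ 2 := by
    have := sum_geometric_two_le J
    simpa using this
  have h5 : (0 : ℝ) ≤ p := by positivity
  have h6 : 2 * (p : ℝ) * ∑ i ∈ Finset.range J, (1 / 2 : ℝ) ^ i ≤ 2 * p * 2 :=
    mul_le_mul_of_nonneg_left h4 (by positivity)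
  rw [nsmul_eq_mul]
  have h7 : ((p - 1 + 1 - 1 : ℕ) : ℝ) ≤ p := by exact_mod_cast (by omega : p - 1 + 1 - 1 ≤ p)
  linarith

lemma quots_fib (k : ℕ) : ∀ q ∈ quots (Nat.fib (k + 3)) (Nat.fib (k + 2)), q ≤ 2 := by
  induction k with
  | zero =>
    intro q hq
    have h3 : Nat.fib (0 + 3) = 2 := by decide
    have h2 : Nat.fib (0 + 2) = 1 := by decide
    rw [h3, h2, quots_pos (by norm_num), List.mem_cons] at hq
    rcases hq with rfl | hq
    · norm_num
    · rw [show 2 % 1 = 0 from rfl, quots_zero] at hq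
      exact absurd hq (by simp)
  | succ k ih =>
    intro q hq
    have hlt : Nat.fib (k + 2) < Nat.fib (k + 3) := Nat.fib_lt_fib_succ (by omega)
    have h4 : Nat.fib (k + 1 + 3) = Nat.fib (k + 2) + Nat.fib (k + 3) := by
      have := Nat.fib_add_two (n := k + 2)
      exact this
    have h3 : Nat.fib (k + 1 + 2) = Nat.fib (k + 3) := rfl
    rw [h4, h3, quots_pos (by omega), List.mem_cons] at hq
    rcases hq with rfl | hq
    · have : (Nat.fib (k + 2) + Nat.fib (k + 3)) / Nat.fib (k + 3) < 2 + 1 := by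
        rw [Nat.div_lt_iff_lt_mul (by omega)]; omega
      omega
    · rw [Nat.add_mod_right, Nat.mod_eq_of_lt hlt] at hq
      exact ih q hq

lemma lsum_le {n a A : ℕ} (h : ∀ q ∈ quots n a, q ≤ A) :
    lsum n a ≤ (quots n a).length * Real.logb 2 (A + 1) := by
  unfold lsum
  have h1 := List.sum_le_card_nsmul ((quots n a).map fun q : ℕ => Real.logb 2 ((q : ℝ) + 1))
    (Real.logb 2 (A + 1)) (by
      intro x hx
      rw [List.mem_map] at hx
      obtain ⟨q, hq, rfl⟩ := hx
      have h2 : (q : ℝ) ≤ A := by exact_mod_cast h q hq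
      exact Real.logb_le_logb_of_le (by norm_num) (by positivity) (by linarith))
  rw [List.length_map, nsmul_eq_mul] at h1
  exact h1

lemma main5 {k b N : ℕ} (hk : 2 ≤ k) (hN : Nat.fib (k + 1) ≤ N) {T : Tr}
    (hT : keys T = List.range (Nat.fib (k + 1))) :
    (costSplay T (prog (Nat.fib (k + 1)) (Nat.fib k) b N) : ℝ) ≤
      1576 * optAny (List.range (Nat.fib (k + 1))) (prog (Nat.fib (k + 1)) (Nat.fib k) b N) := by
  obtain ⟨m, rfl⟩ : ∃ m, k = m + 2 := ⟨k - 2, by omega⟩
  have h1 : 1 ≤ Nat.fib (m + 2) := Nat.fib_pos.2 (by omega)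
  have hlt : Nat.fib (m + 2) < Nat.fib (m + 2 + 1) := Nat.fib_lt_fib_succ (by omega)
  have h2 := main1 (b := b) h1 hlt (Nat.fib_coprime_fib_succ (m + 2)) hN hT
  have h3 := lsum_le (n := Nat.fib (m + 2 + 1)) (a := Nat.fib (m + 2)) (A := 2) (quots_fib m)
  have hl : (0 : ℝ) < (quots (Nat.fib (m + 2 + 1)) (Nat.fib (m + 2))).length := by
    exact_mod_cast quots_length_pos h1
  have h4 : Real.logb 2 ((2 : ℕ) + 1) ≤ 8 / 5 := by
    rw [Real.logb_le_iff_le_rpow (by norm_num) (by norm_num)]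
    have h5 : ((2 : ℝ) ^ (8 / 5 : ℝ)) ^ (5 : ℕ) = 256 := by
      rw [← Real.rpow_natCast, ← Real.rpow_mul (by norm_num)]
      norm_num
    by_contra hcon
    push Not at hcon
    have h6 : ((2 : ℝ) ^ (8 / 5 : ℝ)) ^ (5 : ℕ) < (((2 : ℕ) : ℝ) + 1) ^ (5 : ℕ) :=
      pow_lt_pow_left₀ hcon (by positivity) (by norm_num)
    rw [h5] at h6
    norm_num at h6
  have h5 : lsum (Nat.fib (m + 2 + 1)) (Nat.fib (m + 2)) /
      (quots (Nat.fib (m + 2 + 1)) (Nat.fib (m + 2))).length ≤ 8 / 5 := by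
    rw [div_le_iff₀ hl]
    calc _ ≤ _ := h3
      _ ≤ (quots (Nat.fib (m + 2 + 1)) (Nat.fib (m + 2))).length * (8 / 5) :=
          mul_le_mul_of_nonneg_left h4 hl.le
      _ = _ := by ring
  refine h2.trans (mul_le_mul_of_nonneg_right ?_ (by positivity))
  linarith

end Pool.Agent.Run7.h150.Rot
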