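import Pool.Agent.TH49.Spl.Low

set_option autoImplicit false

/-!
# Counting the changes in a node for a sequence of requests given by a function
-/

namespace Pool.Agent.Run7.h150.Rot

open Pool.Agent.TH49.Spl

/-- the state after one request -/
def nxt (l m r : ℕ) (b : Bool) (x : ℕ) : Bool :=
  if l ≤ x ∧ x < m then true else if m ≤ x ∧ x < r then false else b

/-- the final state -/
def fs (l m r : ℕ) : Bool → List ℕ → Bool
  | b, [] => b
  | b, x :: X => fs l m r (nxt l m r b x) X

/-- one if the request is a change -/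
def inc (l m r : ℕ) (b : Bool) (x : ℕ) : ℕ :=
  if ¬ (l ≤ x ∧ x < m) ∧ (m ≤ x ∧ x < r) ∧ b = true then 1 else 0

lemma cnt_cons (l m r : ℕ) (b : Bool) (x : ℕ) (X : List ℕ) :
    cnt l m r b (x :: X) = inc l m r b x + cnt l m r (nxt l m r b x) X := by
  unfold inc nxt
  by_cases h1 : l ≤ x ∧ x < m
  · simp [cnt, h1]
  · by_cases h2 : m ≤ x ∧ x < r
    · simp [cnt, h1, h2]
    · simp [cnt, h1, h2]

lemma fs_append (l m r : ℕ) (Y : List ℕ) (x : ℕ) : ∀ b,
    fs l m r b (Y ++ [x]) = nxt l m r (fs l m r b Y) x := by
  induction Y with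
  | nil => intro b; rfl
  | cons y Y ih => intro b; exact ih _

lemma cnt_append (l m r : ℕ) (Y : List ℕ) (x : ℕ) : ∀ b,
    cnt l m r b (Y ++ [x]) = cnt l m r b Y + inc l m r (fs l m r b Y) x := by
  induction Y with
  | nil => intro b; rw [List.nil_append, cnt_cons]; simp [cnt, fs]
  | cons y Y ih => intro b; rw [List.cons_append, cnt_cons, cnt_cons, ih, fs]; ring

/-- the state after the first `N` requests -/
def stt (l m r : ℕ) (f : ℕ → ℕ) : ℕ → Bool
  | 0 => false
  | N + 1 => nxt l m r (stt l m r f N) (f N)

/-- the number of changes in the first `N` requests -/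
def cc (l m r : ℕ) (f : ℕ → ℕ) : ℕ → ℕ
  | 0 => 0
  | N + 1 => cc l m r f N + inc l m r (stt l m r f N) (f N)

lemma fs_range (l m r : ℕ) (f : ℕ → ℕ) (N : ℕ) :
    fs l m r false ((List.range N).map f) = stt l m r f N := by
  induction N with
  | zero => rfl
  | succ N ih =>
    rw [List.range_succ, List.map_append, List.map_singleton, fs_append, ih, stt]

lemma cnt_range (l m r : ℕ) (f : ℕ → ℕ) (N : ℕ) :
    cnt l m r false ((List.range N).map f) = cc l m r f N := by
  induction N with
  | zero => rfl
  | succ N ih =>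
    rw [List.range_succ, List.map_append, List.map_singleton, cnt_append, ih, fs_range, cc]

lemma cc_mono (l m r : ℕ) (f : ℕ → ℕ) (N : ℕ) : cc l m r f N ≤ cc l m r f (N + 1) := by
  rw [cc]; omega

/-- visits of a part of the left half, followed after `s` steps by a visit of the right half -/
lemma core_pos {l m r s : ℕ} {f : ℕ → ℕ} (J : ℕ → Prop) [DecidablePred J] (hs : 1 ≤ s)
    (hJ : ∀ i, J i → l ≤ f i ∧ f i < m)
    (hmove : ∀ i, J i → m ≤ f (i + s) ∧ f (i + s) < r)
    (hsep : ∀ i j, i < j → J i → J j → i + s ≤ j) (N : ℕ) :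
    (∃ i, J i ∧ i < N ∧ N ≤ i + s ∧ ((stt l m r f N = true ∧ Nat.count J N ≤ cc l m r f N + 1) ∨
      Nat.count J N ≤ cc l m r f N)) ∨
    ((∀ i, J i → i < N → i + s < N) ∧ Nat.count J N ≤ cc l m r f N) := by
  induction N with
  | zero => right; exact ⟨fun i _ h => by omega, by simp⟩
  | succ N ih =>
    have hmono := cc_mono l m r f N
    rw [Nat.count_succ]
    by_cases hN : J N
    · obtain ⟨h1, h2⟩ := hJ N hN
      have hc : Nat.count J N ≤ cc l m r f N := by
        rcases ih with ⟨i, hi, h3, h4, -⟩ | ⟨-, h⟩
        · exfalso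
          have h5 := hsep i N h3 hi hN
          have h6 : i + s = N := by omega
          have h7 := hmove i hi
          rw [h6] at h7
          omega
        · exact h
      left
      refine ⟨N, hN, by omega, by omega, Or.inl ⟨?_, ?_⟩⟩
      · simp [stt, nxt, h1, h2]
      · rw [if_pos hN]; omega
    · rw [if_neg hN, add_zero]
      rcases ih with ⟨i, hi, h3, h4, h5⟩ | ⟨h5, h6⟩
      · rcases Nat.lt_or_ge N (i + s) with h6 | h6
        · left
          refine ⟨i, hi, by omega, by omega, ?_⟩
          rcases h5 with ⟨h7, h8⟩ | h7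
          · by_cases a1 : l ≤ f N ∧ f N < m
            · left; refine ⟨?_, by omega⟩
              simp [stt, nxt, a1]
            · by_cases a2 : m ≤ f N ∧ f N < r
              · right
                rw [cc, inc, if_pos ⟨a1, a2, h7⟩]; omega
              · left
                refine ⟨?_, by omega⟩
                simp [stt, nxt, a1, a2, h7]
          · right; omega
        · right
          have h7 : N = i + s := by omega
          have h8 := hmove i hi
          rw [← h7] at h8
          refine ⟨fun j hj hj1 => ?_, ?_⟩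
          · rcases Nat.lt_or_ge j N with hj2 | hj2
            · rcases Nat.lt_or_ge i j with hj3 | hj3
              · have := hsep i j hj3 hi hj; omega
              · omega
            · have : j = N := by omega
              rw [this] at hj; exact absurd hj hN
          · rcases h5 with ⟨h9, h10⟩ | h9
            · rw [cc, inc, if_pos ⟨by omega, h8, h9⟩]; omega
            · omega
      · right
        refine ⟨fun j hj hj1 => ?_, by omega⟩
        rcases Nat.lt_or_ge j N with hj2 | hj2
        · have := h5 j hj hj2; omega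
        · have : j = N := by omega
          rw [this] at hj; exact absurd hj hN

/-- visits of a part of the right half, followed after `s` steps by a visit of the left half -/
lemma core_neg {l m r s : ℕ} {f : ℕ → ℕ} (J : ℕ → Prop) [DecidablePred J] (hs : 1 ≤ s)
    (hJ : ∀ i, J i → m ≤ f i ∧ f i < r)
    (hmove : ∀ i, J i → l ≤ f (i + s) ∧ f (i + s) < m)
    (hsep : ∀ i j, i < j → J i → J j → i + s ≤ j) (N : ℕ) :
    Nat.count J N ≤ cc l m r f N ∨ (Nat.count J N = cc l m r f N + 1 ∧
      ((∃ i, J i ∧ i < N ∧ N ≤ i + s) ∨ stt l m r f N = true)) := by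
  induction N with
  | zero => left; simp
  | succ N ih =>
    have hmono := cc_mono l m r f N
    rw [Nat.count_succ]
    by_cases hN : J N
    · obtain ⟨h1, h2⟩ := hJ N hN
      rw [if_pos hN]
      have hnp : ¬ ∃ i, J i ∧ i < N ∧ N ≤ i + s := by
        rintro ⟨i, hi, h3, h4⟩
        have h5 := hsep i N h3 hi hN
        have h6 : i + s = N := by omega
        have h7 := hmove i hi
        rw [h6] at h7
        omega
      have hp : ∃ i, J i ∧ i < N + 1 ∧ N + 1 ≤ i + s := ⟨N, hN, by omega, by omega⟩
      rcases ih with h3 | ⟨h3, h4 | h4⟩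
      · by_cases h5 : Nat.count J N + 1 ≤ cc l m r f (N + 1)
        · left; exact h5
        · right; exact ⟨by omega, Or.inl hp⟩
      · exact absurd h4 hnp
      · right
        have h5 : cc l m r f (N + 1) = cc l m r f N + 1 := by
          rw [cc, inc, if_pos ⟨by omega, ⟨h1, h2⟩, h4⟩]
        exact ⟨by omega, Or.inl hp⟩
    · rw [if_neg hN, add_zero]
      rcases ih with h3 | ⟨h3, h4 | h4⟩
      · left; omega
      · obtain ⟨i, hi, h5, h6⟩ := h4
        by_cases h8 : cc l m r f N + 1 ≤ cc l m r f (N + 1)
        · left; omega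
        · right
          refine ⟨by omega, ?_⟩
          rcases Nat.lt_or_ge N (i + s) with h7 | h7
          · left; exact ⟨i, hi, by omega, by omega⟩
          · right
            have h9 : N = i + s := by omega
            have h10 := hmove i hi
            rw [← h9] at h10
            simp [stt, nxt, h10]
      · by_cases a1 : l ≤ f N ∧ f N < m
        · by_cases h8 : cc l m r f N + 1 ≤ cc l m r f (N + 1)
          · left; omega
          · right
            refine ⟨by omega, Or.inr ?_⟩
            simp [stt, nxt, a1]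
        · by_cases a2 : m ≤ f N ∧ f N < r
          · left
            rw [cc, inc, if_pos ⟨a1, a2, h4⟩]; omega
          · by_cases h8 : cc l m r f N + 1 ≤ cc l m r f (N + 1)
            · left; omega
            · right
              refine ⟨by omega, Or.inr ?_⟩
              simp [stt, nxt, a1, a2, h4]

lemma core_pos' {l m r s : ℕ} {f : ℕ → ℕ} (J : ℕ → Prop) [DecidablePred J] (hs : 1 ≤ s)
    (hJ : ∀ i, J i → l ≤ f i ∧ f i < m)
    (hmove : ∀ i, J i → m ≤ f (i + s) ∧ f (i + s) < r)
    (hsep : ∀ i j, i < j → J i → J j → i + s ≤ j) (N : ℕ) :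
    Nat.count J N ≤ cnt l m r false ((List.range N).map f) + 1 := by
  rw [cnt_range]
  rcases core_pos J hs hJ hmove hsep N with ⟨i, -, -, -, h⟩ | ⟨-, h⟩ <;> omega

lemma core_neg' {l m r s : ℕ} {f : ℕ → ℕ} (J : ℕ → Prop) [DecidablePred J] (hs : 1 ≤ s)
    (hJ : ∀ i, J i → m ≤ f i ∧ f i < r)
    (hmove : ∀ i, J i → l ≤ f (i + s) ∧ f (i + s) < m)
    (hsep : ∀ i j, i < j → J i → J j → i + s ≤ j) (N : ℕ) :
    Nat.count J N ≤ cnt l m r false ((List.range N).map f) + 1 := by
  rw [cnt_range]
  rcases core_neg J hs hJ hmove hsep N with h | ⟨h, -⟩ <;> omega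

end Pool.Agent.Run7.h150.Rot
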