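import Pool.Agent.Run7.h150.Rot.Level

set_option autoImplicit false

/-!
# The multiples of `a` modulo `n` and Euclid's algorithm
-/

namespace Pool.Agent.Run7.h150.Rot

/-- the quotients in Euclid's algorithm for `n`, `a` -/
def quots (n a : ℕ) : List ℕ :=
  if h : a = 0 then [] else (n / a) :: quots a (n % a)
termination_by a
decreasing_by exact Nat.mod_lt _ (Nat.pos_of_ne_zero h)

lemma quots_zero (n : ℕ) : quots n 0 = [] := by rw [quots]; simp

lemma quots_pos {n a : ℕ} (h : a ≠ 0) : quots n a = (n / a) :: quots a (n % a) := by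
  rw [quots, dif_neg h]

/-- a state of the extended Euclidean algorithm -/
structure St (n a s s' r r' : ℕ) : Prop where
  sgn : ∃ ε : ℤ, (ε = 1 ∨ ε = -1) ∧ (n : ℤ) ∣ s * a - ε * r ∧ (n : ℤ) ∣ s' * a + ε * r'
  det : s' * r + s * r' = n
  pos : 1 ≤ s'
  lt : r' < r

lemma St.start {n a : ℕ} (h : a < n) : St n a 0 1 n a where
  sgn := ⟨-1, Or.inr rfl, by simp, by simp⟩
  det := by ring
  pos := le_rfl
  lt := h

lemma St.step {n a s s' r r' : ℕ} (h : St n a s s' r r') (hr : r' ≠ 0) :
    St n a s' (s + (r / r') * s') r' (r % r') := by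
  have hr' : 0 < r' := Nat.pos_of_ne_zero hr
  have e : (r : ℤ) = r' * (r / r' : ℕ) + (r % r' : ℕ) := by
    exact_mod_cast (Nat.div_add_mod r r').symm
  obtain ⟨ε, h1, h2, h3⟩ := h.sgn
  refine ⟨⟨-ε, ?_, ?_, ?_⟩, ?_, ?_, Nat.mod_lt _ hr'⟩
  · rcases h1 with rfl | rfl
    · right; rfl
    · left; norm_num
  · have : (s' : ℤ) * a - -ε * r' = s' * a + ε * r' := by ring
    rw [this]; exact h3
  · have e2 : (((s + (r / r') * s' : ℕ) : ℤ)) * a + -ε * (r % r' : ℕ) =
        (s * a - ε * r) + (r / r' : ℕ) * (s' * a + ε * r') := by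
      rw [e]; push_cast; ring
    rw [e2]
    exact Int.dvd_add h2 (Dvd.dvd.mul_left h3 _)
  · have e' := Nat.div_add_mod r r'
    calc (s + (r / r') * s') * r' + s' * (r % r') =
        s' * (r' * (r / r') + r % r') + s * r' := by ring
      _ = n := by rw [e']; exact h.det
  · have h4 : 1 ≤ r / r' := Nat.div_pos h.lt.le hr'
    have h5 := h.pos
    nlinarith

lemma dst_spec {n : ℕ} (hn : 0 < n) (x : ℕ) : ∃ w : ℤ, (n : ℤ) ∣ x - w ∧ |w| = dst n x := by
  have h1 := mod_eq_iff (n := n) (x := x) rfl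
  have h2 : x % n < n := Nat.mod_lt _ hn
  rcases le_total (x % n) (n - x % n) with h | h
  · refine ⟨(x % n : ℕ), h1, ?_⟩
    rw [dst, min_eq_left h, Nat.abs_cast]
  · refine ⟨(x % n : ℕ) - n, ?_, ?_⟩
    · have : (x : ℤ) - ((x % n : ℕ) - n) = (x - (x % n : ℕ)) + n := by ring
      rw [this]
      exact Int.dvd_add h1 (dvd_refl _)
    · rw [dst, min_eq_right h, abs_sub_comm, abs_of_nonneg (by omega)]
      omega

/-- fewer than `s'` steps never move by less than `r` -/
lemma St.best {n a s s' r r' : ℕ} (hn : 0 < n) (h : St n a s s' r r') {u : ℕ} (hu : 0 < u)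
    (hus : u < s') : r ≤ dst n (u * a) := by
  obtain ⟨w, hw1, hw2⟩ := dst_spec hn (u * a)
  obtain ⟨ε, h1, h2, h3⟩ := h.sgn
  have hn' : (n : ℤ) ≠ 0 := by exact_mod_cast hn.ne'
  have hdet : (s' : ℤ) * r + s * r' = n := by exact_mod_cast h.det
  have hε2 : ε * ε = 1 := by rcases h1 with rfl | rfl <;> norm_num
  push_cast at hw1
  obtain ⟨c1, hc1⟩ := hw1
  obtain ⟨c2, hc2⟩ := h2
  obtain ⟨c3, hc3⟩ := h3
  -- the two coordinates
  have hX : (u : ℤ) * r' + ε * w * s' = n * (u * ε * c3 - ε * s' * c1) := by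
    have : (n : ℤ) * (u * ε * c3 - ε * s' * c1) = u * ε * (n * c3) - ε * s' * (n * c1) := by ring
    rw [this, ← hc3, ← hc1]
    linear_combination (-(u : ℤ) * r') * hε2
  have hY : (u : ℤ) * r - ε * w * s = n * (ε * s * c1 - u * ε * c2) := by
    have : (n : ℤ) * (ε * s * c1 - u * ε * c2) = ε * s * (n * c1) - u * ε * (n * c2) := by ring
    rw [this, ← hc2, ← hc1]
    linear_combination (-(u : ℤ) * r) * hε2
  set X := u * ε * c3 - ε * s' * c1 with hXd
  set Y := ε * s * c1 - u * ε * c2 with hYd
  have e1 : X * s + Y * s' = u := by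
    apply mul_left_cancel₀ hn'
    have : (n : ℤ) * (X * s + Y * s') = (n * X) * s + (n * Y) * s' := by ring
    rw [this, ← hX, ← hY, ← hdet]; ring
  have e2 : X * r - Y * r' = ε * w := by
    apply mul_left_cancel₀ hn'
    have : (n : ℤ) * (X * r - Y * r') = (n * X) * r - (n * Y) * r' := by ring
    rw [this, ← hX, ← hY, ← hdet]; ring
  have hus' : (u : ℤ) < s' := by exact_mod_cast hus
  have hu' : (0 : ℤ) < u := by exact_mod_cast hu
  have hs0 : (0 : ℤ) ≤ s := by positivity
  have hs0' : (0 : ℤ) ≤ s' := by positivity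
  have hr0 : (0 : ℤ) ≤ r := by positivity
  have hr0' : (0 : ℤ) ≤ r' := by positivity
  have habs : |ε * w| = |w| := by
    rw [abs_mul]
    rcases h1 with rfl | rfl <;> simp
  have hgoal : (r : ℤ) ≤ |ε * w| := by
    rw [← e2]
    rcases le_or_gt 1 Y with hY1 | hY1
    · have hXn : X ≤ -1 := by
        by_contra hc
        have : 0 ≤ X := by omega
        have h5 : 0 ≤ X * s := mul_nonneg this hs0
        nlinarith
      have : X * r - Y * r' ≤ -r := by nlinarith
      have h6 := neg_abs_le (X * r - Y * r')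
      omega
    · have hXn : 1 ≤ X := by
        by_contra hc
        have : X ≤ 0 := by omega
        nlinarith
      have : (r : ℤ) ≤ X * r - Y * r' := by nlinarith
      exact this.trans (le_abs_self _)
  rw [habs, hw2] at hgoal
  exact_mod_cast hgoal

lemma St.r_le {n a s s' r r' : ℕ} (h : St n a s s' r r') : r ≤ n := by
  have h1 := h.det
  have h2 := h.pos
  nlinarith

lemma St.mv {n a s s' r r' : ℕ} (hn : 0 < n) (h : St n a s s' r r') (hr : r' ≠ 0) :
    Mv n a s' r' := by
  refine ⟨h.pos, ?_, fun u hu hus => h.lt.le.trans (h.best hn hu hus)⟩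
  obtain ⟨ε, h1, -, c, hc⟩ := h.sgn
  have hrn : r' < n := h.lt.trans_le h.r_le
  rcases h1 with rfl | rfl
  · right
    have h5 : ((s' * a : ℕ) : ℤ) = ((n - r' : ℕ) : ℤ) + n * (c - 1) := by
      push_cast [Nat.cast_sub hrn.le]
      linarith
    have h6 : (((s' * a) % n : ℕ) : ℤ) = ((n - r' : ℕ) : ℤ) := by
      rw [Int.natCast_mod, h5, Int.add_mul_emod_self_left, Int.emod_eq_of_lt (by positivity)]
      exact_mod_cast (by omega : n - r' < n)
    exact_mod_cast h6
  · left
    have h5 : ((s' * a : ℕ) : ℤ) = (r' : ℤ) + n * c := by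
      push_cast
      linarith
    have h6 : (((s' * a) % n : ℕ) : ℤ) = (r' : ℤ) := by
      rw [Int.natCast_mod, h5, Int.add_mul_emod_self_left, Int.emod_eq_of_lt (by positivity)]
      exact_mod_cast hrn
    exact_mod_cast h6

lemma good_clog {n a s t : ℕ} (h : Mv n a s t) (ht : t ≠ 0) : Good n a (Nat.clog 2 t) := by
  refine ⟨s, t, h, Nat.le_pow_clog (by norm_num) t, ?_⟩
  rcases Nat.lt_or_ge t 2 with h2 | h2
  · have : t = 1 := by omega
    subst this
    simp
  · have h3 := Nat.pow_pred_clog_lt_self (b := 2) (by norm_num) (x := t) (by omega)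
    have h4 : 0 < Nat.clog 2 t := Nat.clog_pos (by norm_num) h2
    rw [Nat.pred_eq_sub_one] at h3
    have h5 : 2 ^ Nat.clog 2 t = 2 * 2 ^ (Nat.clog 2 t - 1) := by
      rw [← pow_succ']; congr 1; omega
    omega

open Classical in
/-- the number of the steps is at most twice the number of the good scales -/
lemma quots_le {n a : ℕ} (hn : 0 < n) : ∀ (r' s s' r : ℕ), St n a s s' r r' →
    (quots r r').length ≤
      2 * ((Finset.range (Nat.clog 2 r' + 1)).filter fun e => Good n a e).card := by
  intro r'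
  induction r' using Nat.strong_induction_on with
  | _ r' ih =>
    intro s s' r h
    by_cases h0 : r' = 0
    · subst h0
      rw [quots_zero]; simp
    have hg : Nat.clog 2 r' ∈ (Finset.range (Nat.clog 2 r' + 1)).filter fun e => Good n a e :=
      Finset.mem_filter.2 ⟨Finset.mem_range.2 (by omega), good_clog (h.mv hn h0) h0⟩
    have hg1 : 1 ≤ ((Finset.range (Nat.clog 2 r' + 1)).filter fun e => Good n a e).card :=
      Finset.card_pos.2 ⟨_, hg⟩
    rw [quots_pos h0, List.length_cons]
    have h1 := h.step h0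
    set q := r % r' with hq
    by_cases h2 : q = 0
    · rw [h2, quots_zero]; simp only [List.length_nil]; omega
    rw [quots_pos h2, List.length_cons]
    have h3 := h1.step h2
    set v := r' % q with hv
    by_cases h4 : v = 0
    · rw [h4, quots_zero]; simp only [List.length_nil]; omega
    have hqr : q < r' := h1.lt
    have hvq : v < q := h3.lt
    have hvr : 2 * v < r' := by
      have e1 : r' = q * (r' / q) + v := (Nat.div_add_mod r' q).symm
      have e2 : 1 ≤ r' / q := Nat.div_pos hqr.le (by omega)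
      nlinarith
    have h5 := ih v (by omega) _ _ _ h3
    have h6 : Nat.clog 2 v < Nat.clog 2 r' := by
      have hp : 0 < Nat.clog 2 r' := Nat.clog_pos (by norm_num) (by omega)
      have e1 : r' ≤ 2 ^ Nat.clog 2 r' := Nat.le_pow_clog (by norm_num) r'
      have e2 : 2 ^ Nat.clog 2 r' = 2 * 2 ^ (Nat.clog 2 r' - 1) := by
        rw [← pow_succ']; congr 1; omega
      have e3 : Nat.clog 2 v ≤ Nat.clog 2 r' - 1 := Nat.clog_le_of_le_pow (by omega)
      omega
    have h7 : ((Finset.range (Nat.clog 2 v + 1)).filter fun e => Good n a e).card + 1 ≤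
        ((Finset.range (Nat.clog 2 r' + 1)).filter fun e => Good n a e).card := by
      rw [← Finset.card_insert_of_notMem (a := Nat.clog 2 r')
        (s := (Finset.range (Nat.clog 2 v + 1)).filter fun e => Good n a e)
        (by
          intro hmem
          have := Finset.mem_range.1 (Finset.mem_filter.1 hmem).1
          omega)]
      apply Finset.card_le_card
      intro e he
      rcases Finset.mem_insert.1 he with rfl | he
      · exact hg
      · rw [Finset.mem_filter, Finset.mem_range] at he ⊢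
        exact ⟨by omega, he.2⟩
    omega

open Classical in
/-- the good scales -/
noncomputable def gs (n a : ℕ) : Finset ℕ :=
  (Finset.range n).filter fun e => 1 ≤ e ∧ 2 ^ (e + 1) ≤ n ∧ Good n a e

lemma gs_spec {n a e : ℕ} (he : e ∈ gs n a) : 1 ≤ e ∧ 2 ^ (e + 1) ≤ n ∧ Good n a e := by
  simp only [gs, Finset.mem_filter] at he
  exact he.2

lemma mem_gs {n a e : ℕ} (h1 : 1 ≤ e) (h2 : 2 ^ (e + 1) ≤ n) (h3 : Good n a e) : e ∈ gs n a := by
  simp only [gs, Finset.mem_filter, Finset.mem_range]
  refine ⟨?_, h1, h2, h3⟩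
  have : e + 1 < 2 ^ (e + 1) := Nat.lt_two_pow_self
  omega

lemma length_quots_le {n a : ℕ} (ha : a < n) : (quots n a).length ≤ 2 * (gs n a).card + 6 := by
  classical
  have hn : 0 < n := by omega
  have h1 := quots_le hn a 0 1 n (St.start ha)
  have h2 : ((Finset.range (Nat.clog 2 a + 1)).filter fun e => Good n a e) ⊆
      gs n a ∪ {0, Nat.log 2 n, Nat.log 2 n + 1} := by
    intro e he
    rw [Finset.mem_filter, Finset.mem_range] at he
    obtain ⟨he1, he2⟩ := he
    have h3 : Nat.clog 2 a ≤ Nat.log 2 n + 1 := by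
      apply Nat.clog_le_of_le_pow
      exact ha.le.trans (Nat.lt_pow_succ_log_self (by norm_num) n).le
    rw [Finset.mem_union]
    by_cases h4 : e = 0 ∨ e = Nat.log 2 n ∨ e = Nat.log 2 n + 1
    · right
      simpa using h4
    · left
      apply mem_gs (by omega) _ he2
      calc 2 ^ (e + 1) ≤ 2 ^ Nat.log 2 n := Nat.pow_le_pow_right (by norm_num) (by omega)
        _ ≤ n := Nat.pow_log_le_self 2 hn.ne'
  have h3 := (Finset.card_le_card h2).trans (Finset.card_union_le _ _)
  have h4 : ({0, Nat.log 2 n, Nat.log 2 n + 1} : Finset ℕ).card ≤ 3 := Finset.card_le_three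
  have h5 : (quots n a).length ≤
      2 * ((Finset.range (Nat.clog 2 a + 1)).filter fun e => Good n a e).card := by
    convert h1
  omega

/-- the logarithm is at most the sum of the logarithms of the quotients plus one -/
lemma log_le_quots : ∀ r' r : ℕ, 0 < r → Real.logb 2 r ≤ Real.logb 2 (Nat.gcd r r') +
    ((quots r r').map fun q : ℕ => Real.logb 2 ((q : ℝ) + 1)).sum := by
  intro r'
  induction r' using Nat.strong_induction_on with
  | _ r' ih =>
    intro r hr
    by_cases h0 : r' = 0
    · subst h0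
      rw [quots_zero]; simp
    have hr' : 0 < r' := Nat.pos_of_ne_zero h0
    rw [quots_pos h0, List.map_cons, List.sum_cons]
    have h1 := ih (r % r') (Nat.mod_lt _ hr') r' hr'
    have h2 : Nat.gcd r' (r % r') = Nat.gcd r r' := by
      rw [Nat.gcd_comm r', ← Nat.gcd_rec, Nat.gcd_comm]
    rw [h2] at h1
    have h3 : Real.logb 2 r ≤ Real.logb 2 ((r / r' : ℕ) + 1) + Real.logb 2 r' := by
      rw [← Real.logb_mul (by positivity) (by positivity)]
      refine Real.logb_le_logb_of_le (by norm_num) (by exact_mod_cast hr) ?_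
      have : r < r' * (r / r' + 1) := Nat.lt_mul_div_succ r hr'
      have h4 : ((r : ℕ) : ℝ) ≤ ((r' * (r / r' + 1) : ℕ) : ℝ) := by exact_mod_cast this.le
      push_cast at h4 ⊢
      linarith
    linarith

end Pool.Agent.Run7.h150.Rot
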