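import Pool.Agent.Run7.h150.Rot.Cnt
import Pool.Agent.N724.TW.T_VAL
import Pool.Agent.N724.TW.T_CNT

set_option autoImplicit false

/-!
# Arithmetic progressions modulo `n`: the lower bound for the optimum
-/

namespace Pool.Agent.Run7.h150.Rot

open Pool.Agent.H581R2.Splay Pool.Agent.TH49.Spl Pool.Agent.N724.TW

/-- the requests `b, b + a, b + 2a, ..., b + (N-1)a` modulo `n` -/
def prog (n a b N : ℕ) : List ℕ := (List.range N).map fun i => (b + i * a) % n

/-- the distance of `x` to the multiples of `n` -/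
def dst (n x : ℕ) : ℕ := min (x % n) (n - x % n)

lemma dst_le {n x : ℕ} (hn : 0 < n) {w : ℤ} (h : (n : ℤ) ∣ x - w) : (dst n x : ℤ) ≤ |w| := by
  obtain ⟨c, hc⟩ := h
  have h1 : (x : ℤ) = n * (x / n : ℕ) + (x % n : ℕ) := by
    exact_mod_cast (Nat.div_add_mod x n).symm
  have h2 : x % n < n := Nat.mod_lt _ hn
  have h3 : w = (x % n : ℕ) + n * (((x / n : ℕ) : ℤ) - c) := by
    have : w = x - n * c := by linarith
    rw [this, h1]; push_cast; ring
  have hn' : (0 : ℤ) < n := by exact_mod_cast hn
  unfold dst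
  generalize hq : (((x / n : ℕ) : ℤ) - c) = q at h3
  rcases le_or_gt 0 q with h4 | h4
  · have h5 : ((x % n : ℕ) : ℤ) ≤ w := by nlinarith
    have h6 := le_abs_self w
    have h7 := min_le_left (x % n) (n - x % n)
    omega
  · have h5 : w ≤ (x % n : ℕ) - n := by nlinarith
    have h6 := neg_abs_le w
    have h7 := min_le_right (x % n) (n - x % n)
    omega

lemma mod_eq_iff {n x t : ℕ} : x % n = t → (n : ℤ) ∣ x - t := by
  rintro rfl
  refine ⟨(x / n : ℕ), ?_⟩
  have h1 : (x : ℤ) = n * (x / n : ℕ) + (x % n : ℕ) := by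
    exact_mod_cast (Nat.div_add_mod x n).symm
  linarith

/-- number of visits of an interval in one period -/
lemma count_block {n a b x t : ℕ} (hn : 0 < n) (hc : Nat.Coprime a n) (hx : x + t ≤ n) :
    Nat.count (fun i => x ≤ (b + i * a) % n ∧ (b + i * a) % n < x + t) n = t := by
  rw [Nat.count_eq_card_filter_range]
  have hinj : Set.InjOn (fun i => (b + i * a) % n) (Finset.range n : Set ℕ) := by
    intro i hi j hj hij
    have hi' : i < n := by simpa using hi
    have hj' : j < n := by simpa using hj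
    have h0 : b + i * a ≡ b + j * a [MOD n] := hij
    have h1 : i * a ≡ j * a [MOD n] := Nat.ModEq.add_left_cancel' b h0
    have h2 : i ≡ j [MOD n] := Nat.ModEq.cancel_right_of_coprime hc.symm h1
    exact Nat.ModEq.eq_of_lt_of_lt h2 hi' hj'
  have himg : (Finset.range n).image (fun i => (b + i * a) % n) = Finset.range n := by
    apply Finset.eq_of_subset_of_card_le
    · intro y hy
      obtain ⟨i, -, rfl⟩ := Finset.mem_image.1 hy
      exact Finset.mem_range.2 (Nat.mod_lt _ hn)
    · rw [Finset.card_image_of_injOn hinj]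
  have h2 : ((Finset.range n).filter fun i => x ≤ (b + i * a) % n ∧ (b + i * a) % n < x + t).image
      (fun i => (b + i * a) % n) = Finset.Ico x (x + t) := by
    ext y
    simp only [Finset.mem_image, Finset.mem_filter, Finset.mem_range, Finset.mem_Ico]
    constructor
    · rintro ⟨i, ⟨-, h3, h4⟩, rfl⟩
      exact ⟨h3, h4⟩
    · rintro ⟨h3, h4⟩
      have : y ∈ (Finset.range n).image (fun i => (b + i * a) % n) := by
        rw [himg]; exact Finset.mem_range.2 (by omega)
      obtain ⟨i, hi, rfl⟩ := Finset.mem_image.1 this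
      exact ⟨i, ⟨Finset.mem_range.1 hi, h3, h4⟩, rfl⟩
  rw [← Finset.card_image_of_injOn (hinj.mono (by
    intro i hi
    exact Finset.mem_coe.2 (Finset.mem_of_mem_filter i (Finset.mem_coe.1 hi)))), h2]
  simp

lemma count_blocks {n a b x t : ℕ} (hn : 0 < n) (hc : Nat.Coprime a n) (hx : x + t ≤ n) (P : ℕ) :
    Nat.count (fun i => x ≤ (b + i * a) % n ∧ (b + i * a) % n < x + t) (P * n) = P * t := by
  induction P with
  | zero => simp
  | succ P ih =>
    rw [Nat.succ_mul, Nat.count_add, ih, Nat.succ_mul]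
    congr 1
    have : (fun k => x ≤ (b + (P * n + k) * a) % n ∧ (b + (P * n + k) * a) % n < x + t) =
        fun k => x ≤ (b + k * a) % n ∧ (b + k * a) % n < x + t := by
      funext k
      have h1 : (b + (P * n + k) * a) % n = (b + k * a) % n := by
        have : b + (P * n + k) * a = (b + k * a) + n * (P * a) := by ring
        rw [this, Nat.add_mul_mod_self_left]
      rw [h1]
    simp only [this]
    exact count_block hn hc hx

/-- `s` steps move by `t` in one direction, and fewer steps never move by less than `t` -/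
def Mv (n a s t : ℕ) : Prop :=
  1 ≤ s ∧ ((s * a) % n = t ∨ (s * a) % n = n - t) ∧ ∀ u, 0 < u → u < s → t ≤ dst n (u * a)

lemma sep {n a b s t x : ℕ} (hn : 0 < n) (hg : ∀ u, 0 < u → u < s → t ≤ dst n (u * a)) {i j : ℕ}
    (hij : i < j) (hi : x ≤ (b + i * a) % n ∧ (b + i * a) % n < x + t)
    (hj : x ≤ (b + j * a) % n ∧ (b + j * a) % n < x + t) : i + s ≤ j := by
  by_contra hlt
  have h1 := hg (j - i) (by omega) (by omega)
  have h2 : (n : ℤ) ∣ ((j - i) * a : ℕ) - (((b + j * a) % n : ℕ) - ((b + i * a) % n : ℕ) : ℤ) := by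
    have e1 := mod_eq_iff (n := n) (x := b + j * a) rfl
    have e2 := mod_eq_iff (n := n) (x := b + i * a) rfl
    have e3 := Int.dvd_sub e1 e2
    have e4 : (((j - i) * a : ℕ) : ℤ) = (b + j * a : ℕ) - (b + i * a : ℕ) := by
      push_cast [Nat.cast_sub hij.le]; ring
    have e5 : ((b + j * a : ℕ) : ℤ) - (b + i * a : ℕ) -
        ((((b + j * a) % n : ℕ) : ℤ) - ((b + i * a) % n : ℕ)) =
        ((b + j * a : ℕ) : ℤ) - ((b + j * a) % n : ℕ) -
          (((b + i * a : ℕ) : ℤ) - ((b + i * a) % n : ℕ)) := by ring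
    rw [e4, e5]
    exact e3
  have h3 := dst_le hn h2
  have h4 : |((((b + j * a) % n : ℕ) : ℤ) - ((b + i * a) % n : ℕ))| < t := by
    rw [abs_lt]; constructor <;> omega
  have h5 : (t : ℤ) ≤ dst n ((j - i) * a) := by exact_mod_cast h1
  omega

/-- the number of changes in one node -/
lemma level {n a b k s t l : ℕ} (hn : 0 < n) (hc : Nat.Coprime a n) (hg : Mv n a s t)
    (htk : t ≤ k) (hl : l + 2 * k ≤ n) (N : ℕ) :
    (N / n) * t ≤ cnt l (l + k) (l + 2 * k) false (prog n a b N) + 1 := by
  obtain ⟨hs, hmv, hmin⟩ := hg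
  rcases hmv with hmv | hmv
  · -- to the right
    have h1 := core_pos' (l := l) (m := l + k) (r := l + 2 * k) (s := s)
      (f := fun i => (b + i * a) % n)
      (fun i => (l + k - t) ≤ (b + i * a) % n ∧ (b + i * a) % n < (l + k - t) + t) hs
      (fun i hi => by omega)
      (fun i hi => by
        have e1 : (b + (i + s) * a) % n = (b + i * a) % n + t := by
          rw [add_mul, ← add_assoc, Nat.add_mod, hmv, Nat.mod_eq_of_lt]
          omega
        omega)
      (fun i j hij hi hj => sep hn hmin hij hi hj) N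
    have h2 := count_blocks (b := b) (x := l + k - t) (t := t) hn hc (by omega) (N / n)
    have h3 : Nat.count (fun i => (l + k - t) ≤ (b + i * a) % n ∧ (b + i * a) % n < (l + k - t) + t)
        ((N / n) * n) ≤ Nat.count (fun i => (l + k - t) ≤ (b + i * a) % n ∧
          (b + i * a) % n < (l + k - t) + t) N := Nat.count_monotone _ (Nat.div_mul_le_self N n)
    rw [h2] at h3
    exact h3.trans h1
  · -- to the left
    rcases Nat.eq_zero_or_pos t with rfl | ht
    · simp
    have h1 := core_neg' (l := l) (m := l + k) (r := l + 2 * k) (s := s)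
      (f := fun i => (b + i * a) % n)
      (fun i => (l + k) ≤ (b + i * a) % n ∧ (b + i * a) % n < (l + k) + t) hs
      (fun i hi => by omega)
      (fun i hi => by
        have e1 : (b + (i + s) * a) % n = (b + i * a) % n - t := by
          rw [add_mul, ← add_assoc, Nat.add_mod, hmv]
          have e2 : (b + i * a) % n + (n - t) = ((b + i * a) % n - t) + n := by omega
          rw [e2, Nat.add_mod_right, Nat.mod_eq_of_lt]
          omega
        omega)
      (fun i j hij hi hj => sep hn hmin hij hi hj) N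
    have h2 := count_blocks (b := b) (x := l + k) (t := t) hn hc (by omega) (N / n)
    have h3 : Nat.count (fun i => (l + k) ≤ (b + i * a) % n ∧ (b + i * a) % n < (l + k) + t)
        ((N / n) * n) ≤ Nat.count (fun i => (l + k) ≤ (b + i * a) % n ∧
          (b + i * a) % n < (l + k) + t) N := Nat.count_monotone _ (Nat.div_mul_le_self N n)
    rw [h2] at h3
    exact h3.trans h1

/-- the scale `2 ^ e` is good: there is a move by an amount between `2 ^ (e - 1)` and `2 ^ e` -/
def Good (n a e : ℕ) : Prop := ∃ s t, Mv n a s t ∧ t ≤ 2 ^ e ∧ 2 ^ e < 2 * t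

/-- the lower bound for the number of changes -/
lemma alt_ge {n a b N : ℕ} (hc : Nat.Coprime a n) (hN : n ≤ N) (S : Finset ℕ)
    (hS : ∀ e ∈ S, 1 ≤ e ∧ 2 ^ (e + 1) ≤ n ∧ Good n a e) :
    N * S.card ≤ 16 * alt n (prog n a b N) := by
  rcases Nat.eq_zero_or_pos n with rfl | hn
  · have : S = ∅ := by
      rw [Finset.eq_empty_iff_forall_notMem]
      intro e he
      have h1 := (hS e he).2.1
      have h2 : 0 < 2 ^ (e + 1) := by positivity
      omega
    simp [this]
  have hlt : ∀ e ∈ S, e < n := by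
    intro e he
    have h1 := (hS e he).2.1
    have h2 : e + 1 < 2 ^ (e + 1) := Nat.lt_two_pow_self
    omega
  have h1 : ∀ e ∈ S, N ≤ 16 * ∑ i ∈ Finset.range (2 ^ (n - 1 - e)),
      cnt (i * (2 * 2 ^ e)) (i * (2 * 2 ^ e) + 2 ^ e) ((i + 1) * (2 * 2 ^ e)) false
        (prog n a b N) := by
    intro e he
    obtain ⟨he1, he2, s, t, hmv, ht1, ht2⟩ := hS e he
    set k := 2 ^ e with hk
    set M := n / (2 * k) with hM
    have hkpos : 0 < k := by positivity
    have h2k : 2 * k ≤ n := by rw [hk]; rw [pow_succ] at he2; omega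
    have hM1 : 1 ≤ M := by
      rw [hM]; exact Nat.div_pos h2k (by omega)
    have hP1 : 1 ≤ N / n := Nat.div_pos hN hn
    have hsub : Finset.range M ⊆ Finset.range (2 ^ (n - 1 - e)) := by
      intro i hi
      rw [Finset.mem_range] at hi ⊢
      apply CNT.bound (hlt e he)
      have : (i + 1) * (2 * k) ≤ M * (2 * k) := Nat.mul_le_mul_right _ (by omega)
      exact this.trans (Nat.div_mul_le_self n (2 * k))
    have hk2 : k = 2 * 2 ^ (e - 1) := by
      rw [hk, ← pow_succ']; congr 1; omega
    have hk3 : 0 < 2 ^ (e - 1) := by positivity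
    have hcell : ∀ i ∈ Finset.range M, (N / n) * 2 ^ (e - 1) ≤
        cnt (i * (2 * k)) (i * (2 * k) + k) ((i + 1) * (2 * k)) false (prog n a b N) := by
      intro i hi
      rw [Finset.mem_range] at hi
      have h3 : (i + 1) * (2 * k) ≤ n :=
        (Nat.mul_le_mul_right _ (by omega : i + 1 ≤ M)).trans (Nat.div_mul_le_self n (2 * k))
      have h4 : (i + 1) * (2 * k) = i * (2 * k) + 2 * k := by ring
      have h5 := level (b := b) (l := i * (2 * k)) (k := k) hn hc hmv ht1 (by omega) N
      rw [h4]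
      have h6 : 2 ^ (e - 1) + 1 ≤ t := by omega
      have h7 : (N / n) * (2 ^ (e - 1) + 1) ≤ (N / n) * t := Nat.mul_le_mul_left _ h6
      rw [mul_add, mul_one] at h7
      omega
    have h8 : M * ((N / n) * 2 ^ (e - 1)) ≤ ∑ i ∈ Finset.range (2 ^ (n - 1 - e)),
      cnt (i * (2 * k)) (i * (2 * k) + k) ((i + 1) * (2 * k)) false (prog n a b N) := by
      calc M * ((N / n) * 2 ^ (e - 1)) = ∑ i ∈ Finset.range M, (N / n) * 2 ^ (e - 1) := by
            rw [Finset.sum_const, Finset.card_range, smul_eq_mul]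
        _ ≤ ∑ i ∈ Finset.range M,
          cnt (i * (2 * k)) (i * (2 * k) + k) ((i + 1) * (2 * k)) false (prog n a b N) :=
            Finset.sum_le_sum hcell
        _ ≤ _ := Finset.sum_le_sum_of_subset hsub
    refine le_trans ?_ (Nat.mul_le_mul_left 16 h8)
    -- N ≤ 16 M P 2^(e-1)
    have h9 : N < (N / n + 1) * n := by
      rw [mul_comm]; exact Nat.lt_mul_div_succ N hn
    have h10 : n < (M + 1) * (2 * k) := by
      rw [mul_comm]; exact Nat.lt_mul_div_succ n (by omega)
    have h11 : (N / n + 1) * n ≤ (2 * (N / n)) * n := Nat.mul_le_mul_right _ (by omega)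
    have h12 : (M + 1) * (2 * k) ≤ (2 * M) * (2 * k) := Nat.mul_le_mul_right _ (by omega)
    have h13 : (2 * (N / n)) * n ≤ (2 * (N / n)) * ((2 * M) * (2 * k)) :=
      Nat.mul_le_mul_left _ (by omega)
    have h14 : (2 * (N / n)) * ((2 * M) * (2 * k)) = 16 * (M * (N / n * 2 ^ (e - 1))) := by
      rw [hk2]; ring
    omega
  have h2 : N * S.card ≤ ∑ e ∈ S, 16 * ∑ i ∈ Finset.range (2 ^ (n - 1 - e)),
      cnt (i * (2 * 2 ^ e)) (i * (2 * 2 ^ e) + 2 ^ e) ((i + 1) * (2 * 2 ^ e)) false
        (prog n a b N) := by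
    rw [mul_comm, ← smul_eq_mul]
    exact Finset.card_nsmul_le_sum _ _ _ h1
  refine h2.trans ?_
  rw [← Finset.mul_sum]
  refine Nat.mul_le_mul_left 16 ?_
  unfold alt
  exact Finset.sum_le_sum_of_subset (fun e he => Finset.mem_range.2 (hlt e he))

lemma bst_range {n : ℕ} {T : Tr} (hT : keys T = List.range n) : IsBST T := by
  unfold IsBST
  rw [hT]
  exact List.pairwise_lt_range

lemma prog_mem {n a b N : ℕ} (hn : 0 < n) : ∀ x ∈ prog n a b N, x < n := by
  intro x hx
  unfold prog at hx
  rw [List.mem_map] at hx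
  obtain ⟨i, -, rfl⟩ := hx
  exact Nat.mod_lt _ hn

lemma prog_length (n a b N : ℕ) : (prog n a b N).length = N := by simp [prog]

/-- the lower bound for the optimum -/
lemma opt_ge {n a b N : ℕ} (hn : 0 < n) (hc : Nat.Coprime a n) (hN : n ≤ N) (S : Finset ℕ)
    (hS : ∀ e ∈ S, 1 ≤ e ∧ 2 ^ (e + 1) ≤ n ∧ Good n a e) {T : Tr}
    (hT : keys T = List.range n) :
    (N : ℝ) * S.card ≤ 32 * optAny (List.range n) (prog n a b N) := by
  have h1 : ((N : ℝ) * S.card) / 32 ≤ (optAny (List.range n) (prog n a b N) : ℝ) := by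
    refine optAny_ge hT fun T' c hT' hE => ?_
    have h2 := holds_VAL T' (prog n a b N) c n (bst_range hT') (fun x hx => by
      rw [hT', List.mem_range]; exact prog_mem hn x hx) hE
    have h3 := alt_ge (b := b) hc hN S hS
    have h4 : N * S.card ≤ 32 * c := by omega
    have h5 : ((N * S.card : ℕ) : ℝ) ≤ ((32 * c : ℕ) : ℝ) := by exact_mod_cast h4
    push_cast at h5
    linarith
  linarith

lemma opt_len {n a b N : ℕ} {T : Tr} (hT : keys T = List.range n) :
    (N : ℝ) ≤ optAny (List.range n) (prog n a b N) := by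
  refine optAny_ge hT fun T' c hT' hE => ?_
  have h2 := exec_length hE
  rw [prog_length] at h2
  exact_mod_cast h2

end Pool.Agent.Run7.h150.Rot
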