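import Pool.Agent.Run7.h150.Rot.Main

set_option autoImplicit false

/-!
# Almost all differences modulo a prime
-/

namespace Pool.Agent.Run7.h150.Rot

open Pool.Agent.H581R2.Splay Pool.Agent.TH49.Spl Pool.Agent.Y395.SP

open Classical in
/-- the differences for which some short multiple is too close to zero -/
noncomputable def W (p g e : ℕ) : Finset ℕ :=
  (Finset.Icc 1 (p - 1)).filter fun a => ∃ u, 1 ≤ u ∧ u ≤ p / 2 ^ e ∧
    dst p (u * a) ≤ 2 ^ (e - g - 1)

lemma card_dst_le {p u m : ℕ} (hp : p.Prime) (hu : 1 ≤ u) (hup : u < p) :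
    ((Finset.Icc 1 (p - 1)).filter fun a => dst p (u * a) ≤ m).card ≤ 2 * m := by
  have hp0 : 0 < p := hp.pos
  have hcop : Nat.Coprime p u := (Nat.Prime.coprime_iff_not_dvd hp).2
    (Nat.not_dvd_of_pos_of_lt (by omega) hup)
  have hmaps : ∀ a ∈ (Finset.Icc 1 (p - 1)).filter (fun a => dst p (u * a) ≤ m),
      (u * a) % p ∈ Finset.Icc 1 m ∪ Finset.Ico (p - m) p := by
    intro a ha
    rw [Finset.mem_filter, Finset.mem_Icc] at ha
    obtain ⟨⟨h1, h2⟩, h3⟩ := ha
    have h4 : (u * a) % p < p := Nat.mod_lt _ hp0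
    have h5 : (u * a) % p ≠ 0 := by
      intro h
      have h6 : p ∣ u * a := Nat.dvd_of_mod_eq_zero h
      have h7 : p ∣ a := (Nat.Coprime.dvd_mul_left hcop).1 h6
      exact absurd (Nat.le_of_dvd (by omega) h7) (by omega)
    rw [Finset.mem_union, Finset.mem_Icc, Finset.mem_Ico]
    unfold dst at h3
    rcases le_total ((u * a) % p) (p - (u * a) % p) with h | h
    · rw [min_eq_left h] at h3; left; omega
    · rw [min_eq_right h] at h3; right; omega
  have hinj : Set.InjOn (fun a => (u * a) % p)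
      ((Finset.Icc 1 (p - 1)).filter (fun a => dst p (u * a) ≤ m) : Finset ℕ) := by
    intro a ha b hb hab
    rw [Finset.mem_coe, Finset.mem_filter, Finset.mem_Icc] at ha hb
    have h1 : u * a ≡ u * b [MOD p] := hab
    have h2 : a ≡ b [MOD p] := Nat.ModEq.cancel_left_of_coprime hcop h1
    exact Nat.ModEq.eq_of_lt_of_lt h2 (by omega) (by omega)
  calc _ ≤ (Finset.Icc 1 m ∪ Finset.Ico (p - m) p).card :=
        Finset.card_le_card_of_injOn _ hmaps hinj
    _ ≤ (Finset.Icc 1 m).card + (Finset.Ico (p - m) p).card := Finset.card_union_le _ _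
    _ ≤ 2 * m := by rw [Nat.card_Icc, Nat.card_Ico]; omega

lemma card_W {p g e : ℕ} (hp : p.Prime) (hge : g + 1 ≤ e) : (W p g e).card * 2 ^ g ≤ p := by
  classical
  have hsub : W p g e ⊆ (Finset.Icc 1 (p / 2 ^ e)).biUnion fun u =>
      (Finset.Icc 1 (p - 1)).filter fun a => dst p (u * a) ≤ 2 ^ (e - g - 1) := by
    intro a ha
    simp only [W, Finset.mem_filter] at ha
    obtain ⟨h1, u, h2, h3, h4⟩ := ha
    rw [Finset.mem_biUnion]
    exact ⟨u, Finset.mem_Icc.2 ⟨h2, h3⟩, Finset.mem_filter.2 ⟨h1, h4⟩⟩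
  have hlt : p / 2 ^ e < p := Nat.div_lt_self hp.pos (by
    calc 1 < 2 ^ 1 := by norm_num
      _ ≤ 2 ^ e := Nat.pow_le_pow_right (by norm_num) (by omega))
  have h1 : (W p g e).card ≤ (p / 2 ^ e) * (2 * 2 ^ (e - g - 1)) := by
    calc (W p g e).card ≤ _ := Finset.card_le_card hsub
      _ ≤ ∑ u ∈ Finset.Icc 1 (p / 2 ^ e),
          ((Finset.Icc 1 (p - 1)).filter fun a => dst p (u * a) ≤ 2 ^ (e - g - 1)).card :=
            Finset.card_biUnion_le
      _ ≤ ∑ u ∈ Finset.Icc 1 (p / 2 ^ e), 2 * 2 ^ (e - g - 1) := by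
            refine Finset.sum_le_sum fun u hu => ?_
            rw [Finset.mem_Icc] at hu
            exact card_dst_le hp hu.1 (by omega)
      _ = (p / 2 ^ e) * (2 * 2 ^ (e - g - 1)) := by
            rw [Finset.sum_const, Nat.card_Icc, smul_eq_mul, Nat.add_sub_cancel]
  have h2 : 2 * 2 ^ (e - g - 1) * 2 ^ g = 2 ^ e := by
    rw [← pow_succ', ← pow_add]; congr 1; omega
  calc (W p g e).card * 2 ^ g ≤ (p / 2 ^ e) * (2 * 2 ^ (e - g - 1)) * 2 ^ g :=
        Nat.mul_le_mul_right _ h1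
    _ = (p / 2 ^ e) * 2 ^ e := by rw [mul_assoc, h2]
    _ ≤ p := Nat.div_mul_le_self _ _

/-- Dirichlet's theorem -/
lemma dirichlet {n k a : ℕ} (hk : 0 < k) (hkn : k ≤ n) : ∃ u, 1 ≤ u ∧ u ≤ n / k ∧
    dst n (u * a) ≤ k := by
  have hn : 0 < n := by omega
  have hM : 0 < n / k := Nat.div_pos hkn hk
  obtain ⟨j, u, h1, h2, h3⟩ := Real.exists_int_int_abs_mul_sub_le ((a : ℝ) / n) hM
  have hn' : (0 : ℝ) < n := by exact_mod_cast hn
  have h4 : |(u : ℝ) * a - j * n| ≤ n / ((n / k : ℕ) + 1) := by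
    have e1 : (u : ℝ) * a - j * n = (u * (a / n) - j) * n := by field_simp
    rw [e1, abs_mul, abs_of_pos hn']
    calc |(u : ℝ) * (a / n) - j| * n ≤ 1 / ((n / k : ℕ) + 1) * n :=
          mul_le_mul_of_nonneg_right h3 hn'.le
      _ = n / ((n / k : ℕ) + 1) := by ring
  have h5 : (n : ℝ) / ((n / k : ℕ) + 1) ≤ k := by
    rw [div_le_iff₀ (by positivity)]
    have := Nat.lt_mul_div_succ n hk
    have h6 : ((n : ℕ) : ℝ) ≤ ((k * (n / k + 1) : ℕ) : ℝ) := by exact_mod_cast this.le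
    push_cast at h6 ⊢
    linarith
  obtain ⟨v, rfl⟩ := Int.eq_ofNat_of_zero_le h1.le
  have h7 : |((v : ℤ) * a - j * n)| ≤ k := by
    have := h4.trans h5
    have h8 : (((|((v : ℤ) * a - j * n)| : ℤ)) : ℝ) ≤ ((k : ℤ) : ℝ) := by
      push_cast
      push_cast at this
      exact this
    exact_mod_cast h8
  refine ⟨v, by omega, by omega, ?_⟩
  have h8 : (n : ℤ) ∣ ((v * a : ℕ) : ℤ) - ((v : ℤ) * a - j * n) := by
    refine ⟨j, ?_⟩
    push_cast; ring
  have h9 := dst_le hn h8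
  omega

/-- a good scale below `e` -/
lemma exists_good {p g e a : ℕ} (hp : p.Prime) (hge : g + 1 ≤ e) (he : 2 ^ (e + 1) ≤ p)
    (ha : a ∈ Finset.Icc 1 (p - 1)) (hW : a ∉ W p g e) :
    ∃ e' ∈ gs p a, e' ≤ e ∧ e ≤ e' + g := by
  classical
  have hp0 := hp.pos
  have hk : 0 < 2 ^ e := by positivity
  have hkp : 2 ^ e ≤ p := by rw [pow_succ] at he; omega
  obtain ⟨u, hu1, hu2, hu3⟩ := dirichlet (a := a) hk hkp
  have hex : ∃ u, 1 ≤ u ∧ dst p (u * a) ≤ 2 ^ e := ⟨u, hu1, hu3⟩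
  have hs := Nat.find_spec hex
  have hmin : ∀ v, v < Nat.find hex → ¬ (1 ≤ v ∧ dst p (v * a) ≤ 2 ^ e) :=
    fun v hv => Nat.find_min hex hv
  have hle : Nat.find hex ≤ u := Nat.find_min' hex ⟨hu1, hu3⟩
  set s := Nat.find hex with hsd
  set t := dst p (s * a) with ht
  have ht1 : 2 ^ (e - g - 1) < t := by
    by_contra hcon
    apply hW
    simp only [W, Finset.mem_filter]
    exact ⟨ha, s, hs.1, by omega, by omega⟩
  have hmv : Mv p a s t := by
    refine ⟨hs.1, ?_, fun v hv1 hv2 => ?_⟩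
    · have hlt : (s * a) % p < p := Nat.mod_lt _ hp0
      rw [ht, dst]
      rcases le_total ((s * a) % p) (p - (s * a) % p) with h | h
      · rw [min_eq_left h]; left; rfl
      · rw [min_eq_right h]; right; omega
    · have := hmin v hv2
      push Not at this
      have := this hv1
      have h2 := hs.2
      omega
  have hpos : 0 < 2 ^ (e - g - 1) := by positivity
  have hg := good_clog hmv (by omega)
  have h1 : Nat.clog 2 t ≤ e := Nat.clog_le_of_le_pow hs.2
  have h2 : e - g ≤ Nat.clog 2 t := by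
    by_contra hcon
    have h3 : t ≤ 2 ^ Nat.clog 2 t := Nat.le_pow_clog (by norm_num) t
    have h4 : 2 ^ Nat.clog 2 t ≤ 2 ^ (e - g - 1) := Nat.pow_le_pow_right (by norm_num) (by omega)
    omega
  refine ⟨Nat.clog 2 t, mem_gs (by omega) ?_ hg, h1, by omega⟩
  calc 2 ^ (Nat.clog 2 t + 1) ≤ 2 ^ (e + 1) := Nat.pow_le_pow_right (by norm_num) (by omega)
    _ ≤ p := he

/-- the scales considered -/
def Se (p g : ℕ) : Finset ℕ := Finset.Icc (g + 1) (Nat.log 2 p - 1)

lemma Se_spec {p g e : ℕ} (hp : p.Prime) (he : e ∈ Se p g) : g + 1 ≤ e ∧ 2 ^ (e + 1) ≤ p := by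
  unfold Se at he
  rw [Finset.mem_Icc] at he
  refine ⟨he.1, ?_⟩
  calc 2 ^ (e + 1) ≤ 2 ^ Nat.log 2 p := Nat.pow_le_pow_right (by norm_num) (by omega)
    _ ≤ p := Nat.pow_log_le_self 2 hp.ne_zero

open Classical in
/-- the exceptional differences -/
noncomputable def Bad (p g : ℕ) : Finset ℕ :=
  (Finset.Icc 1 (p - 1)).filter fun a =>
    (Se p g).card < 2 * ((Se p g).filter fun e => a ∈ W p g e).card

lemma card_Bad {p g : ℕ} (hp : p.Prime) : (Bad p g).card * 2 ^ g ≤ 2 * p := by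
  classical
  rcases Nat.eq_zero_or_pos (Se p g).card with h0 | h0
  · have : Bad p g = ∅ := by
      unfold Bad
      rw [Finset.filter_eq_empty_iff]
      intro a _
      have h1 : (Se p g) = ∅ := Finset.card_eq_zero.1 h0
      simp [h1]
    rw [this]; simp
  have h1 : (Bad p g).card * (Se p g).card ≤
      ∑ a ∈ Bad p g, 2 * ((Se p g).filter fun e => a ∈ W p g e).card := by
    rw [← smul_eq_mul]
    refine Finset.card_nsmul_le_sum _ _ _ fun a ha => ?_
    simp only [Bad, Finset.mem_filter] at ha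
    exact ha.2.le
  have h2 : ∑ a ∈ Bad p g, 2 * ((Se p g).filter fun e => a ∈ W p g e).card ≤
      2 * ∑ e ∈ Se p g, (W p g e).card := by
    rw [← Finset.mul_sum]
    refine Nat.mul_le_mul_left 2 ?_
    calc ∑ a ∈ Bad p g, ((Se p g).filter fun e => a ∈ W p g e).card
        = ∑ e ∈ Se p g, ((Bad p g).filter fun a => a ∈ W p g e).card := by
          simp only [Finset.card_filter]
          exact Finset.sum_comm
      _ ≤ ∑ e ∈ Se p g, (W p g e).card := by
          refine Finset.sum_le_sum fun e _ => Finset.card_le_card ?_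
          intro a ha
          exact (Finset.mem_filter.1 ha).2
  have h3 : (∑ e ∈ Se p g, (W p g e).card) * 2 ^ g ≤ (Se p g).card * p := by
    rw [Finset.sum_mul, ← smul_eq_mul (Se p g).card p]
    refine Finset.sum_le_card_nsmul _ _ _ fun e he => ?_
    exact card_W hp (Se_spec hp he).1
  have h4 : (Bad p g).card * 2 ^ g * (Se p g).card ≤ 2 * p * (Se p g).card := by
    calc (Bad p g).card * 2 ^ g * (Se p g).card = ((Bad p g).card * (Se p g).card) * 2 ^ g := by
          ring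
      _ ≤ (2 * ∑ e ∈ Se p g, (W p g e).card) * 2 ^ g := Nat.mul_le_mul_right _ (h1.trans h2)
      _ = 2 * ((∑ e ∈ Se p g, (W p g e).card) * 2 ^ g) := by ring
      _ ≤ 2 * ((Se p g).card * p) := Nat.mul_le_mul_left _ h3
      _ = 2 * p * (Se p g).card := by ring
  exact Nat.le_of_mul_le_mul_right h4 h0

lemma log_le_gs {p g a : ℕ} (hp : p.Prime) (ha : a ∈ Finset.Icc 1 (p - 1)) (hB : a ∉ Bad p g) :
    Nat.log 2 p ≤ (g + 1) * (1 + 2 * (gs p a).card) := by
  classical
  have h1 : 2 * ((Se p g).filter fun e => a ∈ W p g e).card ≤ (Se p g).card := by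
    by_contra hcon
    apply hB
    simp only [Bad, Finset.mem_filter]
    exact ⟨ha, by omega⟩
  have h2 : ((Se p g).filter fun e => a ∈ W p g e).card +
      ((Se p g).filter fun e => ¬ a ∈ W p g e).card = (Se p g).card :=
    Finset.card_filter_add_card_filter_not _
  have h3 : ((Se p g).filter fun e => ¬ a ∈ W p g e) ⊆
      (gs p a).biUnion fun e' => Finset.Icc e' (e' + g) := by
    intro e he
    rw [Finset.mem_filter] at he
    obtain ⟨h4, h5⟩ := Se_spec hp he.1
    obtain ⟨e', h6, h7, h8⟩ := exists_good hp h4 h5 ha he.2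
    rw [Finset.mem_biUnion]
    exact ⟨e', h6, Finset.mem_Icc.2 ⟨h7, h8⟩⟩
  have h4 : ((Se p g).filter fun e => ¬ a ∈ W p g e).card ≤ (gs p a).card * (g + 1) := by
    calc _ ≤ _ := Finset.card_le_card h3
      _ ≤ ∑ e' ∈ gs p a, (Finset.Icc e' (e' + g)).card := Finset.card_biUnion_le
      _ = (gs p a).card * (g + 1) := by
          rw [Finset.sum_congr rfl (fun e' _ => by rw [Nat.card_Icc])]
          rw [Finset.sum_congr rfl (fun e' _ => by
            show e' + g + 1 - e' = g + 1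
            omega)]
          rw [Finset.sum_const, smul_eq_mul]
  have h5 : (Se p g).card = Nat.log 2 p - 1 + 1 - (g + 1) := by
    unfold Se; rw [Nat.card_Icc]
  have h6 : (g + 1) * (1 + 2 * (gs p a).card) = g + 1 + 2 * ((gs p a).card * (g + 1)) := by ring
  rw [h6]
  omega

/-- splaying for a difference which is not exceptional -/
lemma main2 {p g a b N : ℕ} (hp : p.Prime) (ha : a ∈ Finset.Icc 1 (p - 1)) (hB : a ∉ Bad p g)
    (hN : p ≤ N) {T : Tr} (hT : keys T = List.range p) :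
    (costSplay T (prog p a b N) : ℝ) ≤
      (932 + 910 * g) * optAny (List.range p) (prog p a b N) := by
  have hn : 0 < p := hp.pos
  have hc : Nat.Coprime a p := by
    rw [Finset.mem_Icc] at ha
    rw [Nat.coprime_comm]
    exact (Nat.Prime.coprime_iff_not_dvd hp).2 (Nat.not_dvd_of_pos_of_lt (by omega) (by omega))
  have h1 := opt_ge (b := b) hn hc hN (gs p a) (fun e he => gs_spec he) hT
  have h2 := opt_len (n := p) (a := a) (b := b) (N := N) hT
  have h3 := cost_le (a := a) (b := b) hn hN hT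
  have h4 : ((Nat.log 2 p : ℕ) : ℝ) ≤ (((g + 1) * (1 + 2 * (gs p a).card) : ℕ) : ℝ) := by
    exact_mod_cast log_le_gs hp ha hB
  push_cast at h4
  have h5 : Real.logb 2 p ≤ (Nat.log 2 p : ℕ) + 1 := by
    rw [Real.logb_le_iff_le_rpow (by norm_num) (by exact_mod_cast hn)]
    have h6 : p < 2 ^ (Nat.log 2 p + 1) := Nat.lt_pow_succ_log_self (by norm_num) p
    have h7 : ((p : ℕ) : ℝ) ≤ ((2 ^ (Nat.log 2 p + 1) : ℕ) : ℝ) := by exact_mod_cast h6.le
    push_cast at h7
    rw [← Real.rpow_natCast] at h7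
    push_cast at h7
    exact h7
  set O : ℝ := ((optAny (List.range p) (prog p a b N) : ℕ) : ℝ) with hO
  have hNr : (0 : ℝ) ≤ N := by positivity
  have hg0 : (0 : ℝ) ≤ g := by positivity
  have h6 : (N : ℝ) * Real.logb 2 p ≤ (g + 1) * (65 * O) + O := by
    calc (N : ℝ) * Real.logb 2 p ≤ N * ((g + 1) * (1 + 2 * (gs p a).card) + 1) :=
          mul_le_mul_of_nonneg_left (by linarith) hNr
      _ = (g + 1) * (N + 2 * (N * (gs p a).card)) + N := by ring
      _ ≤ (g + 1) * (65 * O) + O := by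
          have h7 : (N : ℝ) + 2 * (N * (gs p a).card) ≤ 65 * O := by linarith
          have h8 := mul_le_mul_of_nonneg_left h7 (by positivity : (0 : ℝ) ≤ (g : ℝ) + 1)
          linarith
  nlinarith

/-- the number of the exceptional differences for a given proportion -/
lemma exists_g {δ : ℝ} (h0 : 0 < δ) (h1 : δ ≤ 1) :
    ∃ g : ℕ, 2 ≤ δ * 2 ^ g ∧ (g : ℝ) ≤ 2 + Real.logb 2 (1 / δ) := by
  refine ⟨⌈1 + Real.logb 2 (1 / δ)⌉₊, ?_, ?_⟩
  · have h2 : 1 + Real.logb 2 (1 / δ) ≤ (⌈1 + Real.logb 2 (1 / δ)⌉₊ : ℝ) := Nat.le_ceil _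
    have h3 : (2 : ℝ) ^ (1 + Real.logb 2 (1 / δ)) ≤
        (2 : ℝ) ^ ((⌈1 + Real.logb 2 (1 / δ)⌉₊ : ℕ) : ℝ) :=
      Real.rpow_le_rpow_of_exponent_le (by norm_num) h2
    rw [Real.rpow_add (by norm_num), Real.rpow_one, Real.rpow_logb (by norm_num) (by norm_num)
      (by positivity), Real.rpow_natCast] at h3
    have h4 : δ * (2 * (1 / δ)) = 2 := by field_simp
    have h5 := mul_le_mul_of_nonneg_left h3 h0.le
    linarith
  · have h2 : 0 ≤ Real.logb 2 (1 / δ) :=
      Real.logb_nonneg (by norm_num) (by rw [le_div_iff₀ h0]; linarith)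
    have h3 := Nat.ceil_lt_add_one (by linarith : 0 ≤ 1 + Real.logb 2 (1 / δ))
    linarith

lemma main3 {p : ℕ} (hp : p.Prime) {δ : ℝ} (h0 : 0 < δ) (h1 : δ ≤ 1) :
    ∃ B ⊆ Finset.Icc 1 (p - 1), (B.card : ℝ) ≤ δ * p ∧ ∀ a ∈ Finset.Icc 1 (p - 1), a ∉ B →
      ∀ (b N : ℕ) (T : Tr), p ≤ N → keys T = List.range p →
        (costSplay T (prog p a b N) : ℝ) ≤
          (2752 + 910 * Real.logb 2 (1 / δ)) * optAny (List.range p) (prog p a b N) := by
  obtain ⟨g, hg1, hg2⟩ := exists_g h0 h1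
  refine ⟨Bad p g, ?_, ?_, ?_⟩
  · intro a ha
    simp only [Bad, Finset.mem_filter] at ha
    exact ha.1
  · have h2 : (((Bad p g).card * 2 ^ g : ℕ) : ℝ) ≤ ((2 * p : ℕ) : ℝ) := by
      exact_mod_cast card_Bad hp
    push_cast at h2
    have h3 : (0 : ℝ) < 2 ^ g := by positivity
    have h4 : (0 : ℝ) ≤ p := by positivity
    have h5 : (Bad p g).card * (2 : ℝ) ^ g ≤ δ * p * 2 ^ g := by
      nlinarith
    exact le_of_mul_le_mul_right h5 h3
  · intro a ha haB b N T hN hT
    have h2 := main2 (b := b) hp ha haB hN hT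
    have h3 : (0 : ℝ) ≤ (optAny (List.range p) (prog p a b N) : ℝ) := by positivity
    refine h2.trans (mul_le_mul_of_nonneg_right ?_ h3)
    linarith

end Pool.Agent.Run7.h150.Rot
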